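import Pool.Agent.D0H57.PR.Fin

set_option autoImplicit false

/-!
# Elements of order at least `c p` modulo every prime, in deterministic time `p ^ δ`

For every `δ > 0` there is a bound `I` such that, for EVERY large prime `p`, a deterministic algorithm
with running time `p ^ (δ + o(1))` and polynomial space, not knowing the factorisation of `p - 1`,
computes a list of polynomially many numbers almost all of which have order exactly `(p - 1) / r`
modulo `p`, for some divisor `r ≤ I` of `p - 1`.

The prime factors `l ≤ Y` of `p - 1`, where `Y` is slightly smaller than `p ^ δ`, are found by trial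
division, and for each of them a number `x ≤ Y` whose order modulo `p` has the largest `l`-part. Almost
all members of an explicit list of products of powers of these numbers, `-1` and the numbers up to
`(log p) ^ A` generate the group generated by `-1, 1, …, Y` (library `Pool.Agent.R562.PR`). Its index is
bounded since a positive proportion of the numbers below `p` are products of numbers up to `Y`.
-/

namespace Pool.Agent.Results.MP_18a8a6_lc.BoundedIndex

open Finset NPC Pool.Agent.D0H57.PR Pool.Agent.H595R2.PR

/-- `F` is computed by a program `s := init p; while not stop s do s := step s; return out s`, where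
`init`, `step`, `stop`, `out` are functions on bit strings computed by Turing machines (Mathlib's
`TM2ComputableInPolyTime`) in polynomial time, the input of `init` consists of the binary digits of
`p`, the result is the code of the list `F p`, all states `s` have length at most polynomial in the
number of digits of `p`, and the body of the loop is executed at most `T p` times. So the space is
polynomial, and the time is at most `T p + 1` times a polynomial in the number of digits of `p`. -/
def LoopTime (T : ℕ → ℝ) (F : ℕ → List ℕ) : Prop :=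
  ∃ (init step stop out : List Bool → List Bool) (K : ℕ),
    PolyTime init ∧ PolyTime step ∧ PolyTime stop ∧ PolyTime out ∧
    ∀ p : ℕ, ∃ t : ℕ, (t : ℝ) ≤ T p ∧
      (∀ s : ℕ, s ≤ t → (step^[s] (init (Nat.bits p))).length ≤ (p.size + K) ^ K ∧
        (stop (step^[s] (init (Nat.bits p))) = [true] ↔ s = t)) ∧
      out (step^[t] (init (Nat.bits p))) = bits (F p)

/-- `F p` is a list of `n ^ C` numbers, `n = size p` the number of binary digits of `p`, which is
computed in `O(p ^ δ)` rounds of a loop with polynomial-time body, in polynomial space -/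
def ListInTime (δ : ℝ) (F : ℕ → List ℕ) : Prop :=
  (∃ C : ℕ, ∀ p : ℕ, (F p).length = p.size ^ C) ∧
    ∃ K : ℝ, LoopTime (fun p => K * (p : ℝ) ^ δ) F

open Classical in
/-- For every `δ > 0` there is `I` such that for every `B` a list is computed in time `p ^ (δ + o(1))`
and polynomial space such that for EVERY large prime `p`, for some divisor `r ≤ I` of `p - 1`, all but
a fraction `(size p) ^ (-B)` of the entries of the list have order `(p - 1) / r` modulo `p`. -/
theorem result (δ : ℝ) (hδ : 0 < δ) : ∃ I : ℕ, ∀ B : ℕ, ∃ F : ℕ → List ℕ, ListInTime δ F ∧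
    ∃ p₀ : ℕ, ∀ p : ℕ, p₀ ≤ p → p.Prime → ∃ r : ℕ, 1 ≤ r ∧ r ≤ I ∧ r ∣ p - 1 ∧
      p.size ^ B * #{i ∈ range (F p).length |
        ¬ orderOf (((F p).getD i 0 : ℕ) : ZMod p) = (p - 1) / r} ≤ (F p).length := by
  obtain ⟨c, d, hc, hcd, h1, h2⟩ := exists_cd (a := 0) le_rfl one_pos hδ
  have hd : 1 ≤ d := by omega
  obtain ⟨I, p₂, hI⟩ := index_bounded ((c : ℝ) / d) h1
  refine ⟨I, fun B => ?_⟩
  obtain ⟨A, C, p₁, hp₁⟩ := gen c d hc hcd B
  obtain ⟨K, hK, hloop⟩ := loop c d A C hc hd δ h2
  refine ⟨FF c d A C, ⟨⟨C, length_FF hd A C⟩, K, hloop⟩, max p₁ p₂, fun p hp hpp => ?_⟩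
  haveI : Fact p.Prime := ⟨hpp⟩
  have hYp := Yf_lt (p := p) hcd hpp.two_le
  have hcard := Pool.Agent.TH668.PR.card_mul_index (Gpm p (Yf c d p))
  have hp1 : 0 < p - 1 := by have := hpp.two_le; omega
  have hi0 : 0 < (Gam p (Yf c d p)).index := by
    have h3 := Pool.Agent.TH668.PR.card_mul_index (Gam p (Yf c d p))
    refine Nat.pos_of_ne_zero fun h => ?_
    rw [h, Nat.mul_zero] at h3
    omega
  have hj0 : 0 < (Gpm p (Yf c d p)).index := by
    refine Nat.pos_of_ne_zero fun h => ?_
    rw [h, Nat.mul_zero] at hcard
    omega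
  refine ⟨(Gpm p (Yf c d p)).index, hj0,
    (Nat.le_of_dvd hi0 Gpm_index_dvd).trans (hI p (le_of_max_le_right hp) hpp _ (lt_Yf hd) hYp),
    ⟨_, by rw [Nat.mul_comm]; exact hcard.symm⟩, ?_⟩
  refine le_trans (Nat.mul_le_mul_left _ (card_le_card ?_)) (hp₁ p (le_of_max_le_left hp) hpp)
  intro i hi
  rw [mem_filter] at hi ⊢
  refine ⟨hi.1, fun hg => hi.2 ?_⟩
  obtain ⟨u, hu1, hu2⟩ := hg
  rw [← hu1, orderOf_units, ← Nat.card_zpowers, hu2]
  exact (Nat.div_eq_of_eq_mul_left hj0 hcard.symm).symm

end Pool.Agent.Results.MP_18a8a6_lc.BoundedIndex
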