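import Pool.Agent.D0H57.PR.Fin

set_option autoImplicit false

/-!
# Primitive roots modulo every prime in deterministic time `p ^ (1 / (4 √e) + ε)`

Unconditionally and for EVERY large prime `p`, a deterministic algorithm with running time
`p ^ (1 / (4 √e) + ε)` and polynomial space computes a list of polynomially many numbers almost all
of which are primitive roots modulo `p` (`1 / (4 √e) = 0.1516…`). If `p` is not `1` modulo `8` the
exponent is `1 / (4 e ^ (2 / 3)) = 0.1283…`.

The algorithm. Let `Y = p ^ (c / d)` be slightly smaller than `p ^ δ`. The prime factors `l ≤ Y` of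
`p - 1` are found by trial division. For each of them a number `x ≤ Y` is found for which the `l`-part
of the order modulo `p` is maximal; these `l`-parts, the numbers up to `(log p) ^ A` and `-1` generate
the same group as `-1, 1, …, Y`, since the numbers up to `(log p) ^ A` generate a group of index
smaller than `Y`. Almost all members of an explicit list of polynomially many products of powers of
the elements found generate this group (library `Pool.Agent.R562.PR`). The prime factors `l > Y` of
`p - 1` need not be known.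

The index. Its prime factors `t` are bounded, since a positive proportion of the numbers below `p` are
products of primes up to `Y`. Let `χ` be a character of prime order `t` which is trivial on the numbers
up to `Y`. By Burgess's bound for the characters `χ ^ j` (library `Pool.Agent.H471R4.BW`) the proportion
of the numbers up to `X = p ^ (1 / 4 + η)` with `χ = 1` is nearly `1 / t`, and by Vinogradov's trick it
is at least `1 - log (log X / log Y)`.
-/

namespace Pool.Agent.Results.MP_18a8a6_lc.BurgessTime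

open Finset NPC Pool.Agent.D0H57.PR

/-- `F` is computed by a program `s := init p; while not stop s do s := step s; return out s`, where
`init`, `step`, `stop`, `out` are functions on bit strings computed by Turing machines (Mathlib's
`TM2ComputableInPolyTime`) in polynomial time, the input of `init` consists of the binary digits of
`p`, the result is the code of the list `F p`, all states `s` have length at most polynomial in the
number of digits of `p`, and the body of the loop is executed at most `T p` times. So the space is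
polynomial, and the time is at most `T p + 1` times a polynomial in the number of digits of `p`. -/
def LoopTime (T : ℕ → ℝ) (F : ℕ → List ℕ) : Prop :=
  ∃ (init step stop out : List Bool → List Bool) (K : ℕ),
    PolyTime init ∧ PolyTime step ∧ PolyTime stop ∧ PolyTime out ∧
    ∀ p : ℕ, ∃ t : ℕ, (t : ℝ) ≤ T p ∧
      (∀ s : ℕ, s ≤ t → (step^[s] (init (Nat.bits p))).length ≤ (p.size + K) ^ K ∧
        (stop (step^[s] (init (Nat.bits p))) = [true] ↔ s = t)) ∧
      out (step^[t] (init (Nat.bits p))) = bits (F p)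

/-- `F p` is a list of `n ^ C` numbers, `n = size p` the number of binary digits of `p`, which is
computed in `O(p ^ δ)` rounds of a loop with polynomial-time body, in polynomial space -/
def ListInTime (δ : ℝ) (F : ℕ → List ℕ) : Prop :=
  (∃ C : ℕ, ∀ p : ℕ, (F p).length = p.size ^ C) ∧
    ∃ K : ℝ, LoopTime (fun p => K * (p : ℝ) ^ δ) F

/-- `g` is a primitive root modulo `p` -/
def IsPrimRoot (p g : ℕ) : Prop := orderOf (g : ZMod p) = p - 1

open Classical in
/-- all but a fraction `(size p) ^ (-B)` of the entries of the list `s` are primitive roots -/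
def MostlyPrimRoots (B p : ℕ) (s : List ℕ) : Prop :=
  p.size ^ B * #{i ∈ range s.length | ¬ IsPrimRoot p (s.getD i 0)} ≤ s.length

/-- **(1)** For every `δ > 1 / (4 √e)` a list almost all of whose entries are primitive roots modulo
`p`, for EVERY large prime `p`, is computed in time `p ^ (δ + o(1))` and polynomial space.

**(2)** For the primes which are not `1` modulo `8` this holds for every `δ > 1 / (4 e ^ (2 / 3))`.

**(3)** More generally for every `t₀ ≥ 2` and `δ > 1 / (4 e ^ (1 - 1 / t₀))` it holds for the primes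
`p` such that for each prime factor `t < t₀` of `p - 1` there is a `t`-th power nonresidue `i ≠ 0`,
`|i| ≤ p ^ (1 / (4 e ^ (1 - 1 / t₀)))`. (For `t₀ = 2` this is no condition.) -/
theorem result (B : ℕ) :
    (∀ δ : ℝ, 1 / (4 * √(Real.exp 1)) < δ → ∃ F : ℕ → List ℕ, ListInTime δ F ∧
      ∃ p₀ : ℕ, ∀ p : ℕ, p₀ ≤ p → p.Prime → MostlyPrimRoots B p (F p)) ∧
    (∀ δ : ℝ, 1 / (4 * Real.exp (2 / 3)) < δ → ∃ F : ℕ → List ℕ, ListInTime δ F ∧
      ∃ p₀ : ℕ, ∀ p : ℕ, p₀ ≤ p → p.Prime → p % 8 ≠ 1 → MostlyPrimRoots B p (F p)) ∧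
    (∀ t₀ : ℕ, 2 ≤ t₀ → ∀ δ : ℝ, 1 / (4 * Real.exp (1 - 1 / t₀)) < δ →
      ∃ F : ℕ → List ℕ, ListInTime δ F ∧ ∃ p₀ : ℕ, ∀ p : ℕ, p₀ ≤ p → p.Prime →
        (∀ t : ℕ, t.Prime → t < t₀ → t ∣ p - 1 → ∃ i : ℤ, i ≠ 0 ∧
          |(i : ℝ)| ≤ (p : ℝ) ^ (1 / (4 * Real.exp (1 - 1 / (t₀ : ℝ)))) ∧
          (i : ZMod p) ^ ((p - 1) / t) ≠ 1) → MostlyPrimRoots B p (F p)) := by
  have main : ∀ t₀ : ℕ, 2 ≤ t₀ → ∀ δ : ℝ, 1 / (4 * Real.exp (1 - 1 / t₀)) < δ →
      ∃ F : ℕ → List ℕ, ListInTime δ F ∧ ∃ p₀ : ℕ, ∀ p : ℕ, p₀ ≤ p → p.Prime →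
        (∀ t : ℕ, t.Prime → t < t₀ → t ∣ p - 1 → ∃ i : ℤ, i ≠ 0 ∧
          |(i : ℝ)| ≤ (p : ℝ) ^ (1 / (4 * Real.exp (1 - 1 / (t₀ : ℝ)))) ∧
          (i : ZMod p) ^ ((p - 1) / t) ≠ 1) → MostlyPrimRoots B p (F p) := by
    intro t₀ ht₀ δ hδ
    obtain ⟨C, F, K, _, h1, h2, p₀, h3⟩ := general t₀ (by omega) δ hδ B
    exact ⟨F, ⟨⟨C, h2⟩, K, h1⟩, p₀, h3⟩
  refine ⟨fun δ hδ => ?_, fun δ hδ => ?_, main⟩
  · have hδ' : 1 / (4 * Real.exp (1 - 1 / ((2 : ℕ) : ℝ))) < δ := by
      have := ex_two
      unfold ex at this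
      rw [this]
      exact hδ
    obtain ⟨F, h1, p₀, h2⟩ := main 2 le_rfl δ hδ'
    exact ⟨F, h1, p₀, fun p hp hpp => h2 p hp hpp fun t ht ht2 => absurd ht.two_le (by omega)⟩
  · have e : (1 - 1 / ((3 : ℕ) : ℝ)) = 2 / 3 := by norm_num
    have hδ' : 1 / (4 * Real.exp (1 - 1 / ((3 : ℕ) : ℝ))) < δ := by
      rw [e]
      exact hδ
    obtain ⟨F, h1, p₀, h2⟩ := main 3 (by norm_num) δ hδ'
    have hex := ex_pos 3
    have hev : ∀ᶠ x : ℝ in Filter.atTop, (2 : ℝ) ≤ x ^ (ex 3) :=
      (tendsto_rpow_atTop hex).eventually_ge_atTop _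
    obtain ⟨x0, hx0⟩ := Filter.eventually_atTop.1 hev
    refine ⟨F, h1, max p₀ (max ⌈x0⌉₊ 3), fun p hp hpp h8 => ?_⟩
    haveI : Fact p.Prime := ⟨hpp⟩
    have hp3 : 3 ≤ p := ((le_max_right _ _).trans (le_max_right _ _)).trans hp
    have hxp : x0 ≤ (p : ℝ) := by
      have : ⌈x0⌉₊ ≤ p := ((le_max_left _ _).trans (le_max_right _ _)).trans hp
      exact (Nat.le_ceil _).trans (by exact_mod_cast this)
    refine h2 p (le_of_max_le_left hp) hpp fun t ht ht3 _ => ?_
    have ht2 : t = 2 := by have := ht.two_le; omega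
    subst ht2
    obtain ⟨i, hi0, hi1, hi2⟩ := nonres (p := p) (by omega) h8
    exact ⟨i, hi0, hi1.trans (hx0 p hxp), hi2⟩

end Pool.Agent.Results.MP_18a8a6_lc.BurgessTime
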