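import Pool.Agent.D0H57.PR.Few

set_option autoImplicit false

/-!
# Primitive roots in deterministic time `p ^ δ` for all but `O(log log x)` primes `p ≤ x`

For every `δ > 0` there is a deterministic algorithm with running time `p ^ (δ + o(1))` and polynomial
space which, not knowing the factorisation of `p - 1`, computes a list of polynomially many numbers
such that for all but `O(1)` of the primes in `(Q, Q ^ 2]`, so for all but `O(log log x)` of the primes
up to `x`, almost all entries of the list are primitive roots modulo `p`.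

The prime factors `l ≤ Y` of `p - 1`, where `Y` is slightly smaller than `p ^ δ`, are found by trial
division, and for each of them a number `x ≤ Y` whose order modulo `p` has the largest `l`-part. Almost
all members of an explicit list of products of powers of these numbers, `-1` and the numbers up to
`(log p) ^ A` generate the group generated by `-1, 1, …, Y` (library `Pool.Agent.R562.PR`). If this is
not everything there is a nonprincipal character trivial on all numbers which have no prime factor
exceeding `Y`; as these have positive density, the large sieve shows that this happens for a bounded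
number of primes in `(Q, Q ^ 2]`.
-/

namespace Pool.Agent.Results.MP_18a8a6_lc.FewExceptional

open Finset NPC Pool.Agent.D0H57.PR Pool.Agent.H595R2.PR

/-- `F` is computed by a program `s := init p; while not stop s do s := step s; return out s`, where
`init`, `step`, `stop`, `out` are functions on bit strings computed by Turing machines (Mathlib's
`TM2ComputableInPolyTime`) in polynomial time, the input of `init` consists of the binary digits of
`p`, the result is the code of the list `F p`, all states `s` have length at most polynomial in the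
number of digits of `p`, and the body of the loop is executed at most `T p` times. So the space is
polynomial, and the time is at most `T p + 1` times a polynomial in the number of digits of `p`. -/
def LoopTime (T : ℕ → ℝ) (F : ℕ → List ℕ) : Prop :=
  ∃ (init step stop out : List Bool → List Bool) (K : ℕ),
    PolyTime init ∧ PolyTime step ∧ PolyTime stop ∧ PolyTime out ∧
    ∀ p : ℕ, ∃ t : ℕ, (t : ℝ) ≤ T p ∧
      (∀ s : ℕ, s ≤ t → (step^[s] (init (Nat.bits p))).length ≤ (p.size + K) ^ K ∧
        (stop (step^[s] (init (Nat.bits p))) = [true] ↔ s = t)) ∧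
      out (step^[t] (init (Nat.bits p))) = bits (F p)

/-- `F p` is a list of `n ^ C` numbers, `n = size p` the number of binary digits of `p`, which is
computed in `O(p ^ δ)` rounds of a loop with polynomial-time body, in polynomial space -/
def ListInTime (δ : ℝ) (F : ℕ → List ℕ) : Prop :=
  (∃ C : ℕ, ∀ p : ℕ, (F p).length = p.size ^ C) ∧
    ∃ K : ℝ, LoopTime (fun p => K * (p : ℝ) ^ δ) F

/-- `g` is a primitive root modulo `p` -/
def IsPrimRoot (p g : ℕ) : Prop := orderOf (g : ZMod p) = p - 1

open Classical in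
/-- all but a fraction `(size p) ^ (-B)` of the entries of the list `s` are primitive roots -/
def MostlyPrimRoots (B p : ℕ) (s : List ℕ) : Prop :=
  p.size ^ B * #{i ∈ range s.length | ¬ IsPrimRoot p (s.getD i 0)} ≤ s.length

open Classical in
/-- For every `δ > 0` and `B` a list is computed in time `p ^ (δ + o(1))` and polynomial space, all
but a fraction `(size p) ^ (-B)` of the entries of which are primitive roots modulo `p` for every prime
`p` outside an exceptional set which has at most `K` elements in `(Q, Q ^ 2]` for every `Q`, and hence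
at most `O(log log x)` elements up to `x`. -/
theorem result (δ : ℝ) (hδ : 0 < δ) (B : ℕ) : ∃ F : ℕ → List ℕ, ListInTime δ F ∧ ∃ K : ℕ,
    (∀ Q : ℕ, #{p ∈ Ioc Q (Q ^ 2) | p.Prime ∧ ¬ MostlyPrimRoots B p (F p)} ≤ K) ∧
    ∀ x : ℕ, 3 ≤ x → (#{p ∈ Icc 1 x | p.Prime ∧ ¬ MostlyPrimRoots B p (F p)} : ℝ) ≤
      K * (1 + Real.log (Real.log x)) := by
  obtain ⟨c, d, hc, hcd, h1, h2⟩ := exists_cd (a := 0) le_rfl one_pos hδ
  have hd : 1 ≤ d := by omega
  have hd0 : (0 : ℝ) < d := by exact_mod_cast hd
  obtain ⟨A, C, p₁, hp₁⟩ := prim c d hc hcd B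
  obtain ⟨K, hK, hloop⟩ := loop c d A C hc hd δ h2
  obtain ⟨K₁, hK₁⟩ := few ((c : ℝ) / d) h1 (by
    rw [div_le_one hd0]
    exact_mod_cast hcd.le)
  have hQ : ∀ Q : ℕ, #{p ∈ Ioc Q (Q ^ 2) | p.Prime ∧ ¬ MostlyPrimRoots B p (FF c d A C p)} ≤
      K₁ + p₁ := by
    intro Q
    have hsub : {p ∈ Ioc Q (Q ^ 2) | p.Prime ∧ ¬ MostlyPrimRoots B p (FF c d A C p)} ⊆
        {p ∈ Ioc Q (Q ^ 2) | p.Prime ∧ Gam p (Yf c d p) ≠ ⊤} ∪ range p₁ := by
      intro p hp
      rw [mem_filter] at hp
      rw [mem_union, mem_filter, mem_range]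
      by_cases hpp : p < p₁
      · exact Or.inr hpp
      · refine Or.inl ⟨hp.1, hp.2.1, fun htop => hp.2.2 ?_⟩
        refine hp₁ p (by omega) hp.2.1 ?_
        rw [Gpm, htop, top_sup_eq]
    refine (card_le_card hsub).trans ((card_union_le _ _).trans ?_)
    rw [card_range]
    refine Nat.add_le_add_right (hK₁ Q _ ?_) _
    intro p hp
    rw [mem_filter, mem_Ioc] at hp
    exact ⟨hp.2.1, hp.1.1, hp.1.2, Yf c d p, lt_Yf hd, Yf_lt hcd hp.2.1.two_le, hp.2.2⟩
  -- up to `2 ^ (2 ^ k)`
  have hk : ∀ k : ℕ, #{p ∈ Icc 1 (2 ^ 2 ^ k) |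
      p.Prime ∧ ¬ MostlyPrimRoots B p (FF c d A C p)} ≤ 2 + k * (K₁ + p₁) := by
    intro k
    induction k with
    | zero =>
      refine (card_filter_le _ _).trans ?_
      simp
    | succ k ih =>
      have h3 : {p ∈ Icc 1 (2 ^ 2 ^ (k + 1)) |
          p.Prime ∧ ¬ MostlyPrimRoots B p (FF c d A C p)} ⊆
          {p ∈ Icc 1 (2 ^ 2 ^ k) | p.Prime ∧ ¬ MostlyPrimRoots B p (FF c d A C p)} ∪
          {p ∈ Ioc (2 ^ 2 ^ k) ((2 ^ 2 ^ k) ^ 2) |
            p.Prime ∧ ¬ MostlyPrimRoots B p (FF c d A C p)} := by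
        intro p hp
        rw [mem_filter, mem_Icc] at hp
        rw [mem_union, mem_filter, mem_filter, mem_Icc, mem_Ioc]
        by_cases hle : p ≤ 2 ^ 2 ^ k
        · exact Or.inl ⟨⟨hp.1.1, hle⟩, hp.2⟩
        · refine Or.inr ⟨⟨by omega, ?_⟩, hp.2⟩
          rw [← pow_mul, ← pow_succ]
          exact hp.1.2
      have h4 := (card_le_card h3).trans (card_union_le _ _)
      have h5 := hQ (2 ^ 2 ^ k)
      calc _ ≤ _ := h4
        _ ≤ (2 + k * (K₁ + p₁)) + (K₁ + p₁) := add_le_add ih h5
        _ = 2 + (k + 1) * (K₁ + p₁) := by ring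
  refine ⟨FF c d A C, ⟨⟨C, length_FF hd A C⟩, K, hloop⟩, 4 * (2 + K₁ + p₁), fun Q =>
    (hQ Q).trans (by omega), fun x hx => ?_⟩
  have hx3 : (3 : ℝ) ≤ x := by exact_mod_cast hx
  have hlx : 1 ≤ Real.log x := by
    rw [Real.le_log_iff_exp_le (by linarith)]
    have := Real.exp_one_lt_d9
    linarith
  have hllx : 0 ≤ Real.log (Real.log x) := Real.log_nonneg hlx
  set L : ℕ := Nat.log 2 x with hL
  have hL1 : 2 ^ L ≤ x := Nat.pow_log_le_self 2 (by omega)
  have hL2 : x < 2 ^ (L + 1) := Nat.lt_pow_succ_log_self (by norm_num) x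
  have hL0 : 1 ≤ L := by
    rw [hL]
    exact Nat.log_pos (by norm_num) (by omega)
  set M : ℕ := Nat.log 2 L with hM
  have hM1 : 2 ^ M ≤ L := Nat.pow_log_le_self 2 (by omega)
  have hM2 : L < 2 ^ (M + 1) := Nat.lt_pow_succ_log_self (by norm_num) L
  have hx2 : x ≤ 2 ^ 2 ^ (M + 1) := hL2.le.trans (Nat.pow_le_pow_right (by norm_num) (by omega))
  have hc1 : #{p ∈ Icc 1 x | p.Prime ∧ ¬ MostlyPrimRoots B p (FF c d A C p)} ≤
      2 + (M + 1) * (K₁ + p₁) :=
    (card_le_card (filter_subset_filter _ (Icc_subset_Icc_right hx2))).trans (hk (M + 1))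
  have hl2 : (1 : ℝ) / 2 ≤ Real.log 2 := by
    have := Real.log_two_gt_d9
    linarith
  have hl2' : Real.log 2 ≤ 1 := by
    have := Real.log_two_lt_d9
    linarith
  have hLr : (L : ℝ) ≤ 2 * Real.log x := by
    have h3 : (L : ℝ) * Real.log 2 ≤ Real.log x := by
      rw [← Real.log_pow]
      exact Real.log_le_log (by positivity) (by exact_mod_cast hL1)
    have h4 : (L : ℝ) * (1 / 2) ≤ (L : ℝ) * Real.log 2 :=
      mul_le_mul_of_nonneg_left hl2 (Nat.cast_nonneg _)
    linarith
  have hMr : (M : ℝ) ≤ 2 + 2 * Real.log (Real.log x) := by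
    have hL0' : (0 : ℝ) < L := by exact_mod_cast hL0
    have h3 : (M : ℝ) * Real.log 2 ≤ Real.log L := by
      rw [← Real.log_pow]
      exact Real.log_le_log (by positivity) (by exact_mod_cast hM1)
    have h4 : Real.log L ≤ Real.log 2 + Real.log (Real.log x) := by
      rw [← Real.log_mul (by norm_num) (by linarith)]
      exact Real.log_le_log hL0' hLr
    have h5 : (M : ℝ) * (1 / 2) ≤ (M : ℝ) * Real.log 2 :=
      mul_le_mul_of_nonneg_left hl2 (Nat.cast_nonneg _)
    linarith
  have hc2 : (#{p ∈ Icc 1 x | p.Prime ∧ ¬ MostlyPrimRoots B p (FF c d A C p)} : ℝ) ≤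
      2 + ((M : ℝ) + 1) * ((K₁ : ℝ) + p₁) := by exact_mod_cast hc1
  refine hc2.trans ?_
  push_cast
  have h6 : (0 : ℝ) ≤ (K₁ : ℝ) + p₁ := by positivity
  nlinarith [mul_nonneg h6 hllx, mul_le_mul_of_nonneg_right hMr h6]

end Pool.Agent.Results.MP_18a8a6_lc.FewExceptional
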