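import Pool.Agent.D0H57.SE.Fin2

set_option autoImplicit false

/-!
# The trade-off between time and index at all scales

ONE deterministic loop program `F` with the inputs `p`, `M` and a seed `j < 8 ^ M`: in at most
`8 ^ M * (n + 2)` rounds (`n` the number of binary digits of `p`) and polynomial space it computes a
number `F p M j` such that, for EVERY prime `p` and every `M` between `log n` and `n / 4` (and `≥ C`),
there is a divisor `r ≤ (8 k) ^ (2 k)`, `k = n / M + 1`, of `p - 1` for which all but a fraction
`2 ^ (-M)` of the seeds give elements of order exactly `(p - 1) / r`; and `r = 1` (primitive roots) for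
all but `24 (16 k) ^ (4 k)` of the primes below `2 ^ n` with at least `4 M` digits. With `M` the
integral part of `n ^ θ`, `0 < θ < 1`, the time is `exp (O(n ^ θ))`, the index is at most
`n ^ (16 n ^ (1 - θ))` for every large prime, and the number of the primes `p ≤ x` without primitive
roots is at most `n ^ (67 n ^ (1 - θ))`, `n` the number of digits of `x`. The factorisation of `p - 1`
is not known.

The prime factors `l ≤ 8 ^ M` of `p - 1` are found by trial division, and for each of them a number
`x ≤ 2 ^ M` whose order has the largest `l`-part; the other prime factors are treated by the product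
of the numbers `x ≤ 2 ^ M` with exponents `j ^ (x - 1)`, raised to the power of the part of `p - 1`
found so far. The group generated by the numbers up to `2 ^ M` is large since it contains many smooth
numbers (`Pool.Agent.D0H57.SE.smooth_all`: a proportion `(8 k) ^ (-2 k)`, for all `M`), and it is
everything for most primes by the multiplicative large sieve over smooth numbers.
-/

namespace Pool.Agent.Results.MP_18a8a6_lc.TimeIndexTradeOff

open Finset NPC Pool.Agent.D0H57.SE

/-- `F` is computed by a program `s := init (p, M, j); while not stop s do s := step s; return out s`,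
where `init`, `step`, `stop`, `out` are functions on bit strings computed by Turing machines (Mathlib's
`TM2ComputableInPolyTime`) in polynomial time, the input of `init` is the binary code of the triple
`(p, M, j)`, the result is the binary code of the number `F p M j`, all states `s` have length at most
polynomial in the number of digits of `p` and `j`, and the body of the loop is executed at most `T p M`
times. So the space is polynomial, and the time is at most `T p M + 1` times a polynomial in the number
of digits of `p`, `M` and `j`. -/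
def LoopTime (T : ℕ → ℕ → ℕ) (F : ℕ → ℕ → ℕ → ℕ) : Prop :=
  ∃ (init step stop out : List Bool → List Bool) (K : ℕ),
    PolyTime init ∧ PolyTime step ∧ PolyTime stop ∧ PolyTime out ∧
    ∀ p M j : ℕ, ∃ t : ℕ, t ≤ T p M ∧
      (∀ s : ℕ, s ≤ t →
        (step^[s] (init (bits (p, M, j)))).length ≤ (p.size + j.size + K) ^ K ∧
        (stop (step^[s] (init (bits (p, M, j)))) = [true] ↔ s = t)) ∧
      out (step^[t] (init (bits (p, M, j)))) = bits (F p M j)

open Classical in
/-- all but a fraction `2 ^ (-m)` of the numbers `j < 8 ^ m` satisfy `P` -/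
def AlmostAll (m : ℕ) (P : ℕ → Prop) : Prop := 2 ^ m * #{j ∈ range (8 ^ m) | ¬ P j} ≤ 8 ^ m

open Classical in
/-- Time-index trade-off. There are a program `F` with at most `8 ^ M * (n + 2)` rounds and a constant
`C` such that for all `M ≥ C` with `n ≤ 2 ^ M`, `4 M ≤ n`, with `k = n / M + 1` (integral part):
(1) for every prime `p` with `n` digits there is a divisor `r ≤ (8 k) ^ (2 k)` of `p - 1` such that
almost all seeds give numbers of order `(p - 1) / r` modulo `p`; (2) for all but `24 (16 k) ^ (4 k)` of
the primes with at least `4 M` and at most `n` digits almost all seeds give primitive roots; (3), (4)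
bounds for `M = ⌊n ^ θ⌋`. -/
theorem result : ∃ (F : ℕ → ℕ → ℕ → ℕ) (C : ℕ),
    LoopTime (fun p M => 8 ^ M * (p.size + 2)) F ∧
    (∀ p M : ℕ, p.Prime → C ≤ M → p.size ≤ 2 ^ M → 4 * M ≤ p.size →
      ∃ r : ℕ, 1 ≤ r ∧ r ∣ p - 1 ∧ r ≤ (8 * (p.size / M + 1)) ^ (2 * (p.size / M + 1)) ∧
        AlmostAll M (fun j => orderOf ((F p M j : ℕ) : ZMod p) = (p - 1) / r)) ∧
    (∀ n M : ℕ, C ≤ M → n ≤ 2 ^ M → 4 * M ≤ n →
      #{p ∈ range (2 ^ n) | p.Prime ∧ 4 * M ≤ p.size ∧
        ¬ AlmostAll M (fun j => orderOf ((F p M j : ℕ) : ZMod p) = p - 1)} ≤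
          24 * (16 * (n / M + 1)) ^ (4 * (n / M + 1))) ∧
    ∀ θ : ℝ, 0 < θ → θ < 1 →
      (∃ p₀ : ℕ, ∀ p : ℕ, p₀ ≤ p → p.Prime → ∃ r : ℕ, 1 ≤ r ∧ r ∣ p - 1 ∧
        (r : ℝ) ≤ (p.size : ℝ) ^ (16 * (p.size : ℝ) ^ (1 - θ)) ∧
        AlmostAll ⌊(p.size : ℝ) ^ θ⌋₊ (fun j =>
          orderOf ((F p ⌊(p.size : ℝ) ^ θ⌋₊ j : ℕ) : ZMod p) = (p - 1) / r)) ∧
      ∃ x₀ : ℕ, ∀ x : ℕ, x₀ ≤ x →
        (#{p ∈ range (x + 1) | p.Prime ∧ ¬ AlmostAll ⌊(p.size : ℝ) ^ θ⌋₊ (fun j =>
          orderOf ((F p ⌊(p.size : ℝ) ^ θ⌋₊ j : ℕ) : ZMod p) = p - 1)} : ℝ) ≤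
          (x.size : ℝ) ^ (67 * (x.size : ℝ) ^ (1 - θ)) := by
  obtain ⟨e, he⟩ := pi_nat
  obtain ⟨C, hC⟩ := exists_smooth
  refine ⟨FF, C + 1, loop_gen,
    fun p M hp h1 h2 h3 => every hC p M hp (by omega) (by omega) h2 h3,
    fun n M h1 h2 h3 => ?_, fun θ h0 h1 => ⟨part3 he θ h0 h1, part4 he θ h0 h1⟩⟩
  refine few2 hC n M (by omega) (by omega) h2 h3 _ fun p hp => ?_
  rw [mem_filter, mem_range] at hp
  exact hp

end Pool.Agent.Results.MP_18a8a6_lc.TimeIndexTradeOff
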